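import Pool.Agent.Helper89.Vol5.Goals
import Pool.Agent.Helper77.Poly.BL

set_option autoImplicit false

namespace Pool.Agent.Helper41.Vol5.PkLV

open Pool.Agent.Helper86.Poly Pool.Agent.Helper89.Vol5 MeasureTheory Set
open Pool.Agent.Helper77.Poly.PkBL (vol_ofLp)

/-- the dimensions of the simplices -/
def b : Fin 5 → ℕ := ![1, 1, 1, 0, 0]

/-- the points `-1/2, 1/2` -/
noncomputable def sg (n : ℕ) (α : Fin (n + 1)) (_ : Fin n) : ℝ := ((α : ℕ) : ℝ) - 1 / 2

lemma sg_zero : ∑ α, sg 0 α = 0 ∧ (0 : Fin 0 → ℝ) ∈ interior (convexHull ℝ (range (sg 0))) ∧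
    (1 : ENNReal) ≤ ((0 : ℕ).factorial : ENNReal) * volume (convexHull ℝ (range (sg 0))) := by
  have h1 : convexHull ℝ (range (sg 0)) = univ := by
    apply eq_univ_of_forall
    intro x
    have : x = sg 0 0 := Subsingleton.elim _ _
    rw [this]
    exact subset_convexHull ℝ _ (mem_range_self _)
  refine ⟨Subsingleton.elim _ _, ?_, ?_⟩
  · rw [h1, interior_univ]; exact mem_univ _
  · rw [h1]
    have h2 : volume (univ : Set (Fin 0 → ℝ)) = 1 := by
      have := volume_pi_pi (fun _ : Fin 0 => (univ : Set ℝ))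
      simpa using this
    rw [h2]; simp

lemma sg_one : ∑ α, sg 1 α = 0 ∧ (0 : Fin 1 → ℝ) ∈ interior (convexHull ℝ (range (sg 1))) ∧
    (1 : ENNReal) ≤ ((1 : ℕ).factorial : ENNReal) * volume (convexHull ℝ (range (sg 1))) := by
  have h1 : Icc (fun _ : Fin 1 => (-(1 / 2) : ℝ)) (fun _ => 1 / 2) ⊆ convexHull ℝ (range (sg 1)) := by
    intro x hx
    have ha : sg 1 0 ∈ convexHull ℝ (range (sg 1)) := subset_convexHull ℝ _ (mem_range_self _)
    have hb : sg 1 1 ∈ convexHull ℝ (range (sg 1)) := subset_convexHull ℝ _ (mem_range_self _)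
    have h0 := hx.1 0
    have h2 := hx.2 0
    have h3 := convex_convexHull ℝ (range (sg 1)) ha hb (a := 1 / 2 - x 0) (b := x 0 + 1 / 2)
      (by linarith) (by linarith) (by ring)
    convert h3 using 1
    funext i
    have hi : i = 0 := Subsingleton.elim _ _
    subst hi
    simp [sg]
    try ring
  refine ⟨?_, ?_, ?_⟩
  · funext i
    simp [sg, Fin.sum_univ_two]
    try norm_num
  · rw [mem_interior]
    refine ⟨{x | -(1 / 2) < x 0 ∧ x 0 < 1 / 2}, ?_, ?_, ?_⟩
    · intro x hx
      refine h1 ⟨fun i => ?_, fun i => ?_⟩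
      · have hi : i = 0 := Subsingleton.elim _ _
        subst hi; exact hx.1.le
      · have hi : i = 0 := Subsingleton.elim _ _
        subst hi; exact hx.2.le
    · exact (isOpen_lt continuous_const (continuous_apply 0)).inter
        (isOpen_lt (continuous_apply 0) continuous_const)
    · constructor <;> norm_num
  · have h2 := measure_mono (μ := (volume : Measure (Fin 1 → ℝ))) h1
    rw [Real.volume_Icc_pi] at h2
    simp only [Finset.univ_unique, Finset.prod_singleton] at h2
    have h3 : ENNReal.ofReal (1 / 2 - -(1 / 2)) = 1 := by norm_num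
    rw [h3] at h2
    simpa using h2

lemma b_cases (i : Fin 5) : b i = 0 ∨ b i = 1 := by
  fin_cases i <;> simp [b]

lemma sg_all (i : Fin 5) : ∑ α, sg (b i) α = 0 ∧
    (0 : Fin (b i) → ℝ) ∈ interior (convexHull ℝ (range (sg (b i)))) ∧
    (1 : ENNReal) ≤ ((b i).factorial : ENNReal) * volume (convexHull ℝ (range (sg (b i)))) := by
  rcases b_cases i with h | h
  · rw [h]; exact sg_zero
  · rw [h]; exact sg_one

/-- the index set of the coordinates -/
abbrev κ : Type := Fin 2 ⊕ (Σ i : Fin 5, Fin (b i))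

/-- the enumeration of the coordinates -/
def g : Fin 5 → κ := ![Sum.inl 0, Sum.inl 1, Sum.inr ⟨0, ⟨0, by decide⟩⟩, Sum.inr ⟨1, ⟨0, by decide⟩⟩,
  Sum.inr ⟨2, ⟨0, by decide⟩⟩]

lemma g_bij : Function.Bijective g := by
  decide

/-- the points of the blow-up in the order of the coordinates of `κ` -/
noncomputable def ppt (N : ℝ) : (Σ i : Fin 5, Fin (b i + 1)) → κ → ℝ := pt (P5 N) (fun i => sg (b i))

/-- the equivalence of the coordinates -/
noncomputable def ee : κ ≃ Fin 5 := (Equiv.ofBijective g g_bij).symm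

/-- the isometry -/
noncomputable def Psi : EuclideanSpace ℝ κ ≃ₗᵢ[ℝ] E 5 := LinearIsometryEquiv.piLpCongrLeft 2 ℝ ℝ ee

lemma Psi_apply (v : EuclideanSpace ℝ κ) (j : Fin 5) : (Psi v) j = v (g j) := by
  have h1 : ee.symm j = g j := rfl
  show (LinearIsometryEquiv.piLpCongrLeft 2 ℝ ℝ ee v) j = v (g j)
  rw [LinearIsometryEquiv.piLpCongrLeft_apply]
  simp [Equiv.piCongrLeft', h1]

/-- the points in `E 5` -/
noncomputable def q (N : ℝ) (x : Σ i : Fin 5, Fin (b i + 1)) : E 5 := Psi (WithLp.toLp 2 (ppt N x))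

lemma q_apply (N : ℝ) (x : Σ i : Fin 5, Fin (b i + 1)) (j : Fin 5) : q N x j = ppt N x (g j) := by
  rw [q, Psi_apply]

lemma range_q (N : ℝ) : range (q N) ⊆ range (Q5 N) := by
  rintro _ ⟨⟨i, α⟩, rfl⟩
  fin_cases i
  · change Fin 2 at α
    fin_cases α
    · refine ⟨0, ?_⟩
      ext j
      rw [q_apply]
      fin_cases j <;> simp [ppt, pt, g, Q5, P5, sg]
    · refine ⟨1, ?_⟩
      ext j
      rw [q_apply]
      fin_cases j <;> simp [ppt, pt, g, Q5, P5, sg]
      norm_num [id]
  · change Fin 2 at α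
    fin_cases α
    · refine ⟨2, ?_⟩
      ext j
      rw [q_apply]
      fin_cases j <;> simp [ppt, pt, g, Q5, P5, sg]
    · refine ⟨3, ?_⟩
      ext j
      rw [q_apply]
      fin_cases j <;> simp [ppt, pt, g, Q5, P5, sg]
      norm_num [id]
  · change Fin 2 at α
    fin_cases α
    · refine ⟨4, ?_⟩
      ext j
      rw [q_apply]
      fin_cases j <;> simp [ppt, pt, g, Q5, P5, sg]
    · refine ⟨5, ?_⟩
      ext j
      rw [q_apply]
      fin_cases j <;> simp [ppt, pt, g, Q5, P5, sg]
      norm_num [id]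
  · change Fin 1 at α
    refine ⟨6, ?_⟩
    ext j
    rw [q_apply]
    fin_cases j <;> simp [ppt, pt, g, Q5, P5, sg]
  · change Fin 1 at α
    refine ⟨7, ?_⟩
    ext j
    rw [q_apply]
    fin_cases j <;> simp [ppt, pt, g, Q5, P5, sg]

lemma vol_q (N : ℝ) : volume (convexHull ℝ (range (q N))) = volume (convexHull ℝ (range (ppt N))) := by
  set P : Set (E 5) := convexHull ℝ (range (q N)) with hP
  have hconv : Convex ℝ P := convex_convexHull _ _
  let p : (Σ i : Fin 5, Fin (b i + 1)) → EuclideanSpace ℝ κ := fun x => WithLp.toLp 2 (ppt N x)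
  have hPp : P = Psi '' convexHull ℝ (range p) := by
    have h := Psi.toLinearEquiv.toLinearMap.image_convexHull (range p)
    have h2 : Psi.toLinearEquiv.toLinearMap '' (range p) = range (q N) := by
      rw [← range_comp]
      rfl
    rw [h2] at h
    exact h.symm
  have h1 : volume (Psi ⁻¹' P) = volume P :=
    Psi.measurePreserving.measure_preimage (hconv.nullMeasurableSet volume)
  have h2 : Psi ⁻¹' P = convexHull ℝ (range p) := by
    rw [hPp]
    exact preimage_image_eq _ Psi.injective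
  rw [← h1, h2]
  exact (vol_ofLp p).symm

lemma h5_pos (t : ℝ) (ht : t ∈ Icc (0 : ℝ) (7 / 10)) : 0 < h5 t := by
  have h1 : 0 < 3 / 2 - t ^ 2 := by nlinarith [ht.1, ht.2]
  have h2 : 0 < √(3 / 2 - t ^ 2) := Real.sqrt_pos.mpr h1
  have h3 : 0 ≤ t * √(6 - (1 + 2 * t) ^ 2) := mul_nonneg ht.1 (Real.sqrt_nonneg _)
  unfold h5
  linarith

theorem thm (hBV : G_BV) (hP : G_PEN) : G_LV := by
  intro N hN
  have hpen := hP N hN
  have hc : Convex ℝ (convexHull ℝ (range (P5 N))) := convex_convexHull _ _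
  have hint : (interior (convexHull ℝ (range (P5 N)))).Nonempty := by
    by_contra hne
    rw [not_nonempty_iff_eq_empty] at hne
    have h1 : convexHull ℝ (range (P5 N)) ⊆ frontier (convexHull ℝ (range (P5 N))) := by
      rw [frontier, hne, sdiff_empty]
      exact subset_closure
    have h2 : volume (convexHull ℝ (range (P5 N))) = 0 :=
      measure_mono_null h1 (hc.addHaar_frontier volume)
    rw [h2, mul_zero] at hpen
    have h3 : 0 < ENNReal.ofReal (h5 N) := ENNReal.ofReal_pos.mpr (h5_pos N hN)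
    exact absurd (lt_of_lt_of_le h3 hpen) (lt_irrefl _)
  have hbv := hBV (Fin 5) 2 b (P5 N) (fun i => sg (b i)) (fun i => (sg_all i).1)
    (fun i => (sg_all i).2.1) hint
  have hs : 2 + ∑ i, b i = 5 := by decide
  rw [hs] at hbv
  have hprod : (1 : ENNReal) ≤ ∏ i, (((b i).factorial : ENNReal) *
      volume (convexHull ℝ (range (sg (b i))))) :=
    Finset.one_le_prod'' (fun i => (sg_all i).2.2)
  have e1 : (4 : ENNReal) = 2 * 2 := by norm_num
  have e2 : (240 : ENNReal) = 2 * 120 := by norm_num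
  calc ENNReal.ofReal (h5 N) ≤ 4 * volume (convexHull ℝ (range (P5 N))) := hpen
    _ = 2 * (2 * volume (convexHull ℝ (range (P5 N))) * 1) := by rw [e1, mul_one, mul_assoc]
    _ ≤ 2 * (((2 : ℕ).factorial : ENNReal) * volume (convexHull ℝ (range (P5 N))) *
        ∏ i, (((b i).factorial : ENNReal) * volume (convexHull ℝ (range (sg (b i)))))) := by
      have h2 : ((2 : ℕ).factorial : ENNReal) = 2 := by norm_num [Nat.factorial]
      rw [h2]
      exact mul_le_mul_right (mul_le_mul_right hprod _) _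
    _ = 2 * (((5 : ℕ).factorial : ENNReal) * volume (convexHull ℝ (range (ppt N)))) := by
      rw [← hbv]
      rfl
    _ = 240 * volume (convexHull ℝ (range (ppt N))) := by
      have h2 : ((5 : ℕ).factorial : ENNReal) = 120 := by norm_num [Nat.factorial]
      rw [h2, e2, mul_assoc]
    _ = 240 * volume (convexHull ℝ (range (q N))) := by rw [vol_q]
    _ ≤ 240 * volume (convexHull ℝ (range (Q5 N))) := by
      gcongr
      exact range_q N

end Pool.Agent.Helper41.Vol5.PkLV
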